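import Pool.Agent.X86.AF.Inst

/-!
# MP_034ad4_an : the level set of `1/2` for the Gauss map has Hausdorff dimension one

The Gauss map is `G 0 = 0`, `G x = 1/x - ⌊1/x⌋` on `[0, 1)`, the asymptotic set of `x ∈ [0, 1)` is
`AS x = {y ∈ [0, 1) : |G^n x - G^n y| → 0}` and `Θ(α) = {x ∈ [0, 1) : dim_H AS x = α}`.  We prove
`dim_H Θ(1/2) = 1`.
-/

open Set Filter Topology
open scoped ENNReal

namespace Pool.Agent.Results.MP_034ad4_an.FullDimension

/-- The Gauss map. -/
noncomputable def gauss (x : ℝ) : ℝ := if x = 0 then 0 else 1 / x - ⌊1 / x⌋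

/-- The asymptotic set of `x` in `[0, 1)` under the Gauss map. -/
def AS (x : ℝ) : Set ℝ :=
  {y | y ∈ Ico (0:ℝ) 1 ∧ Tendsto (fun n : ℕ => |gauss^[n] x - gauss^[n] y|) atTop (𝓝 0)}

/-- The level sets `Θ(G; α)`. -/
def Theta (α : ℝ≥0∞) : Set ℝ := {x | x ∈ Ico (0:ℝ) 1 ∧ dimH (AS x) = α}

/-- **The set of points whose asymptotic set has Hausdorff dimension `1/2` has Hausdorff
dimension one.** -/
theorem _root_.Pool.Agent.Results.MP_034ad4_an.FullDimension.result : dimH (Theta (1 / 2)) = 1 := by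
  have h : Pool.Agent.X86.AF.IsMap Pool.Agent.X86.AF.gaussSys (Ico 0 1) gauss :=
    Pool.Agent.X86.AF.gauss_isMap (by simp [gauss]) (fun x hx => by
      unfold gauss; rw [if_neg hx.1.ne'])
  have h1 := Pool.Agent.X86.AF.theta_eq_one h
  have h2 : ENNReal.ofReal (1 / 2) = 1 / 2 := by
    rw [ENNReal.ofReal_div_of_pos (by norm_num)]; norm_num
  rw [h2] at h1
  exact h1

end Pool.Agent.Results.MP_034ad4_an.FullDimension
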